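import Pool.Agent.H43.FL.RPM

/-!
MP_6a7a6f_gt, row DEC of the board flb: the phase cochain of projective space on a product of
projective lines, modulo integers.
-/

namespace Pool.Agent.H43.FL

open Pool.Agent.H58.FL Pool.Agent.H59 Pool.Agent.H48.FR

noncomputable section

/-- multiplying the vectors by nonzero scalars does not change the phase -/
lemma ar_smul {E : Type} [NormedAddCommGroup E] [InnerProductSpace ℂ E] {a b c : ℂ}
    (ha : a ≠ 0) (hb : b ≠ 0) (hc : c ≠ 0) (x y z : E) :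
    ar (a • x) (b • y) (c • z) = ar x y z := by
  have e : inner ℂ (a • x) (b • y) * inner ℂ (b • y) (c • z) * inner ℂ (c • z) (a • x) =
      ((Complex.normSq a * Complex.normSq b * Complex.normSq c : ℝ) : ℂ) *
        (inner ℂ x y * inner ℂ y z * inner ℂ z x) := by
    simp only [inner_smul_left, inner_smul_right]
    push_cast
    rw [← Complex.mul_conj a, ← Complex.mul_conj b, ← Complex.mul_conj c]
    ring
  have hpos : 0 < Complex.normSq a * Complex.normSq b * Complex.normSq c :=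
    mul_pos (mul_pos (Complex.normSq_pos.2 ha) (Complex.normSq_pos.2 hb)) (Complex.normSq_pos.2 hc)
  rw [ar, ar, e, Complex.arg_real_mul _ hpos]

/-- the argument of a product of nonzero numbers, as an angle -/
lemma arg_prod {ι : Type} (s : Finset ι) (f : ι → ℂ) (hf : ∀ i ∈ s, f i ≠ 0) :
    ((∏ i ∈ s, f i).arg : Real.Angle) = ∑ i ∈ s, ((f i).arg : Real.Angle) := by
  classical
  induction s using Finset.induction_on with
  | empty => simp
  | insert a s ha ih =>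
    rw [Finset.prod_insert ha, Finset.sum_insert ha,
      Complex.arg_mul_coe_angle (hf a (Finset.mem_insert_self a s))
        (Finset.prod_ne_zero_iff.2 fun i hi => hf i (Finset.mem_insert_of_mem hi)),
      ih fun i hi => hf i (Finset.mem_insert_of_mem hi)]

/-- the phase of a triangle modulo `2 π` -/
lemma ar_angle {E : Type} [NormedAddCommGroup E] [InnerProductSpace ℂ E] {x y z : E}
    (h1 : inner ℂ x y ≠ 0) (h2 : inner ℂ y z ≠ 0) (h3 : inner ℂ x z ≠ 0) :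
    ((ar x y z : ℝ) : Real.Angle) = ((inner ℂ x y).arg : Real.Angle) +
      ((inner ℂ y z).arg : Real.Angle) - ((inner ℂ x z).arg : Real.Angle) := by
  have h4 : inner ℂ z x = (starRingEnd ℂ) (inner ℂ x z) := (inner_conj_symm z x).symm
  have h5 : (inner ℂ z x : ℂ) ≠ 0 := by
    rw [h4]
    exact (map_ne_zero _).2 h3
  rw [ar, Complex.arg_mul_coe_angle (mul_ne_zero h1 h2) h5, Complex.arg_mul_coe_angle h1 h2, h4,
    Complex.arg_conj_coe_angle, sub_eq_add_neg]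

/-- the representatives of a point of the product of projective lines -/
def rr {n : ℕ} (u : Fin n → CPn 1) : Fin n → Fin 2 → ℂ := fun l => PP.rep (u l)

lemma rr_ne {n : ℕ} (u : Fin n → CPn 1) (l : Fin n) : rr u l ≠ 0 := PP.rep_ne _

lemma rp_gg (hRPM : T_RPM) {n : ℕ} (u : Fin n → CPn 1) :
    ∃ c : ℂ, c ≠ 0 ∧ rp (gg n u) = c • eu (mu n (rr u)) :=
  (hRPM n).2.2.1 _ (mu_ne (rr_ne u))

lemma rp_l {n : ℕ} (u : Fin n → CPn 1) (l : Fin n) :
    ∃ c : ℂ, c ≠ 0 ∧ rp (u l) = c • eu (n := 1) (rr u l) := by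
  refine ⟨(((nrm (PP.rep (u l)))⁻¹ : ℝ) : ℂ),
    Complex.ofReal_ne_zero.2 (inv_ne_zero (nrm_pos (PP.rep_ne (u l))).ne'), rp_eq (u l)⟩

lemma gf_eq (hRPM : T_RPM) {n : ℕ} (u v w : Fin n → CPn 1) :
    gf n u v w = ar (eu (mu n (rr u))) (eu (mu n (rr v))) (eu (mu n (rr w))) /
      (2 * Real.pi) := by
  obtain ⟨a, ha, ea⟩ := rp_gg hRPM u
  obtain ⟨b, hb, eb⟩ := rp_gg hRPM v
  obtain ⟨c, hc, ec⟩ := rp_gg hRPM w
  rw [gf, ff, ea, eb, ec, ar_smul ha hb hc]

lemma fl_eq {n : ℕ} (u v w : Fin n → CPn 1) (l : Fin n) :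
    fl n l u v w = ar (eu (n := 1) (rr u l)) (eu (n := 1) (rr v l)) (eu (n := 1) (rr w l)) /
      (2 * Real.pi) := by
  obtain ⟨a, ha, ea⟩ := rp_l u l
  obtain ⟨b, hb, eb⟩ := rp_l v l
  obtain ⟨c, hc, ec⟩ := rp_l w l
  rw [fl, ff, ea, eb, ec, ar_smul ha hb hc]

lemma inner_gg (hRPM : T_RPM) {n : ℕ} (u v : Fin n → CPn 1) :
    inner ℂ (rp (gg n u)) (rp (gg n v)) ≠ 0 ↔
      inner ℂ (eu (mu n (rr u))) (eu (mu n (rr v))) ≠ 0 := by
  obtain ⟨a, ha, ea⟩ := rp_gg hRPM u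
  obtain ⟨b, hb, eb⟩ := rp_gg hRPM v
  rw [ea, eb, inner_smul_left, inner_smul_right]
  simp [ha, hb]

lemma inner_l {n : ℕ} (u v : Fin n → CPn 1) (l : Fin n) :
    inner ℂ (rp (u l)) (rp (v l)) ≠ 0 ↔
      inner ℂ (eu (n := 1) (rr u l)) (eu (n := 1) (rr v l)) ≠ 0 := by
  obtain ⟨a, ha, ea⟩ := rp_l u l
  obtain ⟨b, hb, eb⟩ := rp_l v l
  rw [ea, eb, inner_smul_left, inner_smul_right]
  simp [ha, hb]

lemma et_angle {n : ℕ} (u v : Fin n → CPn 1)
    (h1 : inner ℂ (eu (mu n (rr u))) (eu (mu n (rr v))) ≠ 0)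
    (h2 : ∀ l, inner ℂ (eu (n := 1) (rr u l)) (eu (n := 1) (rr v l)) ≠ 0) :
    ((eR n (rr u) (rr v)).arg : Real.Angle) =
      ((inner ℂ (eu (mu n (rr u))) (eu (mu n (rr v)))).arg : Real.Angle) -
        ∑ l, ((inner ℂ (eu (n := 1) (rr u l)) (eu (n := 1) (rr v l))).arg : Real.Angle) := by
  have h3 : ∀ l ∈ (Finset.univ : Finset (Fin n)),
      (starRingEnd ℂ) (inner ℂ (eu (n := 1) (rr u l)) (eu (n := 1) (rr v l))) ≠ 0 :=
    fun l _ => (map_ne_zero _).2 (h2 l)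
  rw [eR, Complex.arg_mul_coe_angle h1 (Finset.prod_ne_zero_iff.2 h3), arg_prod _ _ h3]
  simp only [Complex.arg_conj_coe_angle, Finset.sum_neg_distrib, sub_eq_add_neg]

theorem pf_DEC (_hINT : T_INT) (hRPM : T_RPM) : T_DEC := by
  intro n u v w hl h1 h2 h3
  rw [inner_gg hRPM] at h1 h2 h3
  have hl1 := fun l => (inner_l u v l).1 (hl l).1
  have hl2 := fun l => (inner_l v w l).1 (hl l).2.1
  have hl3 := fun l => (inner_l u w l).1 (hl l).2.2
  have key : ((ar (eu (mu n (rr u))) (eu (mu n (rr v))) (eu (mu n (rr w))) -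
      ∑ l, ar (eu (n := 1) (rr u l)) (eu (n := 1) (rr v l)) (eu (n := 1) (rr w l)) -
      ((eR n (rr v) (rr w)).arg - (eR n (rr u) (rr w)).arg + (eR n (rr u) (rr v)).arg) : ℝ) :
        Real.Angle) = 0 := by
    have hs : ((∑ l, ar (eu (n := 1) (rr u l)) (eu (n := 1) (rr v l))
        (eu (n := 1) (rr w l)) : ℝ) : Real.Angle) = ∑ l,
        (((inner ℂ (eu (n := 1) (rr u l)) (eu (n := 1) (rr v l))).arg : Real.Angle) +
        ((inner ℂ (eu (n := 1) (rr v l)) (eu (n := 1) (rr w l))).arg : Real.Angle) -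
        ((inner ℂ (eu (n := 1) (rr u l)) (eu (n := 1) (rr w l))).arg : Real.Angle)) := by
      rw [← Real.Angle.coe_coeHom, map_sum]
      exact Finset.sum_congr rfl fun l _ => ar_angle (hl1 l) (hl2 l) (hl3 l)
    rw [Real.Angle.coe_sub, Real.Angle.coe_sub, Real.Angle.coe_add, Real.Angle.coe_sub, hs,
      ar_angle h1 h2 h3, et_angle v w h2 hl2, et_angle u w h3 hl3, et_angle u v h1 hl1,
      Finset.sum_sub_distrib, Finset.sum_add_distrib]
    abel
  obtain ⟨k, hk⟩ := Real.Angle.coe_eq_zero_iff.1 key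
  refine ⟨k, ?_⟩
  have hpi : (2 * Real.pi) ≠ 0 := by positivity
  have e : ∀ a b : Fin n → CPn 1, et n a b = (eR n (rr a) (rr b)).arg / (2 * Real.pi) :=
    fun a b => rfl
  rw [gf_eq hRPM, Finset.sum_congr rfl fun l _ => fl_eq u v w l, ← Finset.sum_div, d1, e, e, e,
    ← sub_div, ← sub_div, ← add_div, ← sub_div, ← hk, zsmul_eq_mul, mul_div_cancel_right₀ _ hpi]

end

end Pool.Agent.H43.FL
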