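import Pool.Agent.H58.FL.Targets

/-!
MP_6a7a6f_gt, row KNC of the board flb: on the cells the cochains are closed and the
decomposition is exact.
-/

namespace Pool.Agent.H43.FL

open Pool.Agent.H58.FL Pool.Agent.H59 Pool.Agent.H48.FR

noncomputable section

lemma int_zero {x : ℝ} {k : ℤ} (h : x = k) (hx : |x| < 1) : x = 0 := by
  rw [h] at hx ⊢
  have : |k| < 1 := by exact_mod_cast hx
  rw [Int.abs_lt_one_iff.1 this, Int.cast_zero]

theorem pf_KNC (hINT : T_INT) (hDEC : T_DEC) (hSMA : T_SMA) : T_KNC := by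
  intro n
  have hn : (0 : ℝ) < 8 * ((n : ℝ) + 2) := by positivity
  obtain ⟨N₀, hN₀⟩ := hSMA n (1 / (8 * ((n : ℝ) + 2))) (by positivity)
  have hd : 1 / (8 * ((n : ℝ) + 2)) ≤ 1 / 16 := by
    apply one_div_le_one_div_of_le (by norm_num)
    have : (0 : ℝ) ≤ n := Nat.cast_nonneg n
    linarith
  refine ⟨N₀, fun N hN => ⟨?_, ?_, ?_⟩⟩
  · intro S hS x hx y hy z hz w hw
    have H := hN₀ N hN S hS
    have hi := fun a (ha : a ∈ S) b (hb : b ∈ S) => (H a ha b hb b hb).2.2.2.2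
    obtain ⟨k, hk⟩ := (hINT (EuclideanSpace ℂ (Fin (n + 1)))).1 (rp (gg n x)) (rp (gg n y))
      (rp (gg n z)) (rp (gg n w)) (hi x hx y hy) (hi x hx z hz) (hi x hx w hw) (hi y hy z hz)
      (hi y hy w hw) (hi z hz w hw)
    have e : d2 (gf n) x y z w = mn (rp (gg n x)) (rp (gg n y)) (rp (gg n z)) (rp (gg n w)) := by
      rw [d2, mn, gf, gf, gf, gf, ff, ff, ff, ff]
      ring
    refine int_zero (e.trans hk) ?_
    have h1 := abs_lt.1 (H y hy z hz w hw).1
    have h2 := abs_lt.1 (H x hx z hz w hw).1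
    have h3 := abs_lt.1 (H x hx y hy w hw).1
    have h4 := abs_lt.1 (H x hx y hy z hz).1
    rw [d2, abs_lt]
    constructor <;> linarith
  · intro l S hS x hx y hy z hz w hw
    have H := hN₀ N hN S hS
    have hi := fun a (ha : a ∈ S) b (hb : b ∈ S) => (H a ha b hb b hb).2.2.2.1 l
    obtain ⟨k, hk⟩ := (hINT (EuclideanSpace ℂ (Fin (1 + 1)))).1 (rp (x l)) (rp (y l))
      (rp (z l)) (rp (w l)) (hi x hx y hy) (hi x hx z hz) (hi x hx w hw) (hi y hy z hz)
      (hi y hy w hw) (hi z hz w hw)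
    have e : d2 (fl n l) x y z w = mn (rp (x l)) (rp (y l)) (rp (z l)) (rp (w l)) := by
      rw [d2, mn, fl, fl, fl, fl, ff, ff, ff, ff]
      ring
    refine int_zero (e.trans hk) ?_
    have h1 := abs_lt.1 ((H y hy z hz w hw).2.1 l)
    have h2 := abs_lt.1 ((H x hx z hz w hw).2.1 l)
    have h3 := abs_lt.1 ((H x hx y hy w hw).2.1 l)
    have h4 := abs_lt.1 ((H x hx y hy z hz).2.1 l)
    rw [d2, abs_lt]
    constructor <;> linarith
  · intro S hS u hu v hv w hw
    have H := hN₀ N hN S hS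
    obtain ⟨k, hk⟩ := hDEC n u v w
      (fun l => ⟨(H u hu v hv v hv).2.2.2.1 l, (H v hv w hw w hw).2.2.2.1 l,
        (H u hu w hw w hw).2.2.2.1 l⟩)
      (H u hu v hv v hv).2.2.2.2 (H v hv w hw w hw).2.2.2.2 (H u hu w hw w hw).2.2.2.2
    have hz : gf n u v w - ∑ l, fl n l u v w - d1 (et n) u v w = 0 := by
      refine int_zero hk ?_
      have h1 := (H u hu v hv w hw).1
      have h2 : |∑ l, fl n l u v w| ≤ n * (1 / (8 * ((n : ℝ) + 2))) := by
        refine (Finset.abs_sum_le_sum_abs _ _).trans ?_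
        refine (Finset.sum_le_sum fun l _ => ((H u hu v hv w hw).2.1 l).le).trans ?_
        rw [Finset.sum_const, Finset.card_univ, Fintype.card_fin, nsmul_eq_mul]
      have h3 : |et n v w| < 1 / (8 * ((n : ℝ) + 2)) := (H v hv w hw w hw).2.2.1
      have h4 : |et n u w| < 1 / (8 * ((n : ℝ) + 2)) := (H u hu w hw w hw).2.2.1
      have h5 : |et n u v| < 1 / (8 * ((n : ℝ) + 2)) := (H u hu v hv v hv).2.2.1
      have h6 : (n : ℝ) * (1 / (8 * ((n : ℝ) + 2))) ≤ 1 / 8 := by
        rw [mul_one_div, div_le_div_iff₀ hn (by norm_num)]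
        nlinarith
      rw [abs_lt] at h1 h3 h4 h5
      have h2' := abs_le.1 h2
      rw [d1, abs_lt]
      constructor <;> linarith
    linarith

end

end Pool.Agent.H43.FL
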