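import Pool.Agent.H58.FL.Targets

/-!
MP_6a7a6f_gt, row RPM of the board flb: the unit representatives of the points of complex
projective space.
-/

namespace Pool.Agent.H43.FL

open Pool.Agent.H58.FL Pool.Agent.H59 Pool.Agent.H48.FR

noncomputable section

lemma norm_eu {n : ℕ} (x : Fin (n + 1) → ℂ) : ‖eu x‖ = nrm x := by
  rw [EuclideanSpace.norm_eq, nrm]
  rfl

lemma inner_eu {n : ℕ} (x y : Fin (n + 1) → ℂ) : inner ℂ (eu x) (eu y) = hp y x := by
  rw [PiLp.inner_apply, hp]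
  exact Finset.sum_congr rfl fun i _ => rfl

lemma nrm_pos {n : ℕ} {x : Fin (n + 1) → ℂ} (hx : x ≠ 0) : 0 < nrm x :=
  lt_of_le_of_ne (nrm_nonneg x) fun h => hx ((nrm_eq_zero_iff x).1 h.symm)

lemma rp_eq {n : ℕ} (p : CPn n) :
    rp p = (((nrm (PP.rep p))⁻¹ : ℝ) : ℂ) • eu (PP.rep p) := by
  rw [rp]
  exact (RCLike.real_smul_eq_coe_smul (K := ℂ) _ _)

lemma norm_rp {n : ℕ} (p : CPn n) : ‖rp p‖ = 1 := by
  have h := nrm_pos (PP.rep_ne p)
  rw [rp, norm_smul, norm_eu, Real.norm_of_nonneg (inv_nonneg.2 h.le), inv_mul_cancel₀ h.ne']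

lemma eu_smul {n : ℕ} (c : ℂ) (x : Fin (n + 1) → ℂ) : eu (c • x) = c • eu x := rfl

lemma norm_inner_rp {n : ℕ} (p q : CPn n) :
    ‖inner ℂ (rp p) (rp q)‖ = Real.cos (dist p q) := by
  have hp' := nrm_pos (PP.rep_ne p)
  have hq' := nrm_pos (PP.rep_ne q)
  have e : dist p q = Real.arccos (‖hp (PP.rep p) (PP.rep q)‖ /
      (nrm (PP.rep p) * nrm (PP.rep q))) := rfl
  have h0 : 0 ≤ ‖hp (PP.rep p) (PP.rep q)‖ / (nrm (PP.rep p) * nrm (PP.rep q)) := by positivity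
  have h1 : ‖hp (PP.rep p) (PP.rep q)‖ / (nrm (PP.rep p) * nrm (PP.rep q)) ≤ 1 := by
    rw [div_le_one (mul_pos hp' hq')]
    exact norm_hp_le _ _
  rw [e, Real.cos_arccos (by linarith) h1, rp_eq, rp_eq, inner_smul_left, inner_smul_right,
    inner_eu, norm_mul, norm_mul, norm_hp_comm (PP.rep q), RCLike.norm_conj]
  rw [Complex.norm_real, Complex.norm_real, Real.norm_of_nonneg (inv_nonneg.2 hp'.le),
    Real.norm_of_nonneg (inv_nonneg.2 hq'.le)]
  field_simp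

theorem pf_RPM : T_RPM := by
  intro n
  refine ⟨norm_rp, norm_inner_rp, ?_, ?_, ?_⟩
  · intro v hv
    obtain ⟨a, ha, h⟩ := PP.exists_rep v hv
    have hn := nrm_pos (PP.rep_ne (mk v hv))
    refine ⟨(((nrm (PP.rep (mk v hv)))⁻¹ : ℝ) : ℂ) * a,
      mul_ne_zero (Complex.ofReal_ne_zero.2 (inv_ne_zero hn.ne')) ha, ?_⟩
    rw [rp_eq, mul_smul, ← eu_smul a v, ← h]
    rfl
  · intro κ p q h0 h1 hd
    have hd0 : 0 ≤ dist p q := dist_nonneg
    have hpi : Real.arccos (2 * κ - 1) ≤ Real.pi := Real.arccos_le_pi _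
    have hc : 2 * κ - 1 < Real.cos (2 * dist p q) := by
      rw [← Real.cos_arccos (x := 2 * κ - 1) (by linarith) (by linarith)]
      exact Real.cos_lt_cos_of_nonneg_of_le_pi (by linarith) hpi (by linarith)
    rw [Adj, norm_inner_rp]
    rw [Real.cos_two_mul] at hc
    linarith
  · intro p q hd
    have hd0 : 0 ≤ dist p q := dist_nonneg
    have hc : (0 : ℝ) ≤ Real.cos (2 * dist p q) :=
      Real.cos_nonneg_of_mem_Icc ⟨by linarith [Real.pi_pos], by linarith⟩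
    rw [norm_inner_rp]
    rw [Real.cos_two_mul] at hc
    linarith

end

end Pool.Agent.H43.FL
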