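import Pool.Agent.H58.FL.Targets

/-!
MP_6a7a6f_gt, row UNI of the board flb: uniform smallness of the phases on cells.
-/

namespace Pool.Agent.H43.FL

open Pool.Agent.H58.FL Pool.Agent.H59 Pool.Agent.H48.FR

noncomputable section

lemma cell_bd {d N : ℕ} {x : Fin d → Fin N} (hN : 0 < N) {y : Fin d → ℝ} (hy : y ∈ cell x)
    (i : Fin d) : 0 ≤ y i / N ∧ y i / N ≤ 1 := by
  have h := hy i
  have hN' : (0 : ℝ) < N := by exact_mod_cast hN
  have h1 : ((x i : ℕ) : ℝ) + 1 ≤ N := by exact_mod_cast (x i).2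
  have h0 : (0 : ℝ) ≤ ((x i : ℕ) : ℝ) := Nat.cast_nonneg _
  exact ⟨div_nonneg (by linarith) hN'.le, by rw [div_le_one hN']; linarith⟩

lemma cell_dist {d N : ℕ} {x : Fin d → Fin N} (hN : 0 < N) {y y' : Fin d → ℝ} (hy : y ∈ cell x)
    (hy' : y' ∈ cell x) {η : ℝ} (hη : 0 < η) (h : 1 / (N : ℝ) < η) :
    dist (fun i => y' i / (N : ℝ)) (fun i => y i / (N : ℝ)) < η := by
  have hN' : (0 : ℝ) < N := by exact_mod_cast hN
  rw [dist_pi_lt_iff hη]
  intro i
  refine lt_of_le_of_lt ?_ h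
  rw [Real.dist_eq, ← sub_div, abs_div, abs_of_pos hN']
  refine div_le_div_of_nonneg_right ?_ hN'.le
  have h1 := hy i
  have h2 := hy' i
  rw [abs_le]
  constructor <;> linarith

theorem pf_UNI : T_UNI := by
  intro d Φ hc hd δ hδ
  set F : (Fin d → ℝ) × (Fin d → ℝ) × (Fin d → ℝ) → ℂ := fun p => Φ p.1 p.2.1 p.2.2 with hF
  have hV : IsOpen (F ⁻¹' Complex.slitPlane) := Complex.isOpen_slitPlane.preimage hc
  have hf : ContinuousOn (fun p => |(F p).arg|) (F ⁻¹' Complex.slitPlane) := by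
    intro p hp
    exact ((Complex.continuousAt_arg hp).comp hc.continuousAt).abs.continuousWithinAt
  have hU : IsOpen ((F ⁻¹' Complex.slitPlane) ∩ (fun p => |(F p).arg|) ⁻¹' Set.Iio δ) :=
    hf.isOpen_inter_preimage hV isOpen_Iio
  set K : Set ((Fin d → ℝ) × (Fin d → ℝ) × (Fin d → ℝ)) :=
    (fun y => (y, y, y)) '' (Set.pi Set.univ fun _ => Set.Icc (0 : ℝ) 1) with hK
  have hKc : IsCompact K :=
    (isCompact_univ_pi fun _ => isCompact_Icc).image
      (continuous_id.prodMk (continuous_id.prodMk continuous_id))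
  have hKU : K ⊆ (F ⁻¹' Complex.slitPlane) ∩ (fun p => |(F p).arg|) ⁻¹' Set.Iio δ := by
    rintro p ⟨y, -, rfl⟩
    have h := hd y
    refine ⟨Or.inl h.1, ?_⟩
    have h0 : (F (y, y, y)).arg = 0 := Complex.arg_eq_zero_iff.2 ⟨h.1.le, h.2⟩
    show |(F (y, y, y)).arg| < δ
    rw [h0, abs_zero]
    exact hδ
  obtain ⟨η, hη, hηU⟩ := hKc.exists_thickening_subset_open hU hKU
  obtain ⟨N₁, hN₁⟩ := exists_nat_gt (1 / η)
  refine ⟨N₁ + 1, fun N hN x y hy y' hy' y'' hy'' => ?_⟩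
  have hN0 : 0 < N := by omega
  have hN' : (0 : ℝ) < N := by exact_mod_cast hN0
  have hNη : 1 / (N : ℝ) < η := by
    refine (one_div_lt hη hN').1 (hN₁.trans_le ?_)
    exact_mod_cast (by omega : N₁ ≤ N)
  have hmem : ((fun i => y i / (N : ℝ)), (fun i => y' i / (N : ℝ)), (fun i => y'' i / (N : ℝ))) ∈
      Metric.thickening η K := by
    rw [Metric.mem_thickening_iff]
    refine ⟨((fun i => y i / (N : ℝ)), (fun i => y i / (N : ℝ)), (fun i => y i / (N : ℝ))),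
      ⟨_, fun i _ => cell_bd hN0 hy i, rfl⟩, ?_⟩
    rw [Prod.dist_eq, Prod.dist_eq, dist_self]
    exact max_lt hη (max_lt (cell_dist hN0 hy hy' hη hNη) (cell_dist hN0 hy hy'' hη hNη))
  have := hηU hmem
  exact ⟨Complex.slitPlane_ne_zero this.1, this.2⟩

end

end Pool.Agent.H43.FL
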