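import Pool.Agent.H43.FL.DEC
import Pool.Agent.H43.FL.UNI

/-!
MP_6a7a6f_gt, row SMA of the board flb: smallness of the phases on the cells.
-/

namespace Pool.Agent.H43.FL

open Pool.Agent.H58.FL Pool.Agent.H59 Pool.Agent.H48.FR

noncomputable section

/-- the parametrisation of the product of the projective lines by the unit cube -/
def al {n : ℕ} (y : Fin (2 * n) → ℝ) (l : Fin n) : Fin 2 → ℂ := at2 (y (pr l 0)) (y (pr l 1))

lemma al_ne {n : ℕ} (y : Fin (2 * n) → ℝ) (l : Fin n) : al y l ≠ 0 := at2_ne _ _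

lemma aN_eq {n : ℕ} (N : ℕ) (y : Fin (2 * n) → ℝ) (l : Fin n) :
    aN N y l = al (fun i => y i / (N : ℝ)) l := rfl

/-- the representative of the point of the grid -/
lemma rr_gY {n : ℕ} (N : ℕ) (y : Fin (2 * n) → ℝ) :
    ∃ c : Fin n → ℂ, (∀ l, c l ≠ 0) ∧
      rr (gY N y) = fun l => c l • al (fun i => y i / (N : ℝ)) l := by
  have h : ∀ l : Fin n, ∃ a : ℂ, a ≠ 0 ∧ rr (gY N y) l = a • al (fun i => y i / (N : ℝ)) l := by
    intro l
    exact PP.exists_rep _ _
  choose c hc hc' using h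
  exact ⟨c, hc, funext hc'⟩

lemma continuous_al (hMUL : T_MUL) {n : ℕ} (l : Fin n) :
    Continuous fun y : Fin (2 * n) → ℝ => al y l := by
  have h1 : Continuous fun y : Fin (2 * n) → ℝ => (y (pr l 0), y (pr l 1)) :=
    (continuous_apply (pr l 0)).prodMk (continuous_apply (pr l 1))
  have h2 : (fun y : Fin (2 * n) → ℝ => al y l) =
      (fun p : ℝ × ℝ => at2 p.1 p.2) ∘ fun y : Fin (2 * n) → ℝ => (y (pr l 0), y (pr l 1)) := rfl
  rw [h2]
  exact (hMUL n).2.2.2.comp h1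

lemma continuous_eu {n : ℕ} : Continuous fun x : Fin (n + 1) → ℂ => eu x :=
  PiLp.continuous_toLp 2 _

lemma continuous_mual (hMUL : T_MUL) {n : ℕ} :
    Continuous fun y : Fin (2 * n) → ℝ => eu (mu n (al y)) :=
  continuous_eu.comp ((hMUL n).2.2.1.comp (continuous_pi fun l => continuous_al hMUL l))

/-- the product of the inner products of three vectors, for a family of vectors -/
def F3 {d : ℕ} {E : Type} [NormedAddCommGroup E] [InnerProductSpace ℂ E]
    (g : (Fin d → ℝ) → E) (y y' y'' : Fin d → ℝ) : ℂ :=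
  inner ℂ (g y) (g y') * inner ℂ (g y') (g y'') * inner ℂ (g y'') (g y)

lemma F3_cont {d : ℕ} {E : Type} [NormedAddCommGroup E] [InnerProductSpace ℂ E]
    {g : (Fin d → ℝ) → E} (hg : Continuous g) :
    Continuous fun p : (Fin d → ℝ) × (Fin d → ℝ) × (Fin d → ℝ) => F3 g p.1 p.2.1 p.2.2 := by
  have h1 : Continuous fun p : (Fin d → ℝ) × (Fin d → ℝ) × (Fin d → ℝ) => g p.1 :=
    hg.comp continuous_fst
  have h2 : Continuous fun p : (Fin d → ℝ) × (Fin d → ℝ) × (Fin d → ℝ) => g p.2.1 :=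
    hg.comp (continuous_fst.comp continuous_snd)
  have h3 : Continuous fun p : (Fin d → ℝ) × (Fin d → ℝ) × (Fin d → ℝ) => g p.2.2 :=
    hg.comp (continuous_snd.comp continuous_snd)
  exact ((h1.inner h2).mul (h2.inner h3)).mul (h3.inner h1)

lemma inner_self_pos {E : Type} [NormedAddCommGroup E] [InnerProductSpace ℂ E] {x : E}
    (hx : x ≠ 0) : 0 < (inner ℂ x x : ℂ).re ∧ (inner ℂ x x : ℂ).im = 0 := by
  have h : (inner ℂ x x : ℂ) = ((‖x‖ ^ 2 : ℝ) : ℂ) := by
    rw [inner_self_eq_norm_sq_to_K]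
    push_cast
    rfl
  rw [h, Complex.ofReal_re, Complex.ofReal_im]
  exact ⟨by have := norm_pos_iff.2 hx; positivity, rfl⟩

lemma pos_mul {a b : ℂ} (ha : 0 < a.re ∧ a.im = 0) (hb : 0 < b.re ∧ b.im = 0) :
    0 < (a * b).re ∧ (a * b).im = 0 := by
  rw [Complex.mul_re, Complex.mul_im, ha.2, hb.2]
  refine ⟨?_, by ring⟩
  have := mul_pos ha.1 hb.1
  linarith

lemma pos_prod {ι : Type} (s : Finset ι) (f : ι → ℂ) (hf : ∀ i, 0 < (f i).re ∧ (f i).im = 0) :
    0 < (∏ i ∈ s, f i).re ∧ (∏ i ∈ s, f i).im = 0 := by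
  classical
  induction s using Finset.induction_on with
  | empty => simp
  | insert a s ha ih =>
    rw [Finset.prod_insert ha]
    exact pos_mul (hf a) ih

lemma F3_pos {d : ℕ} {E : Type} [NormedAddCommGroup E] [InnerProductSpace ℂ E]
    {g : (Fin d → ℝ) → E} (hg : ∀ y, g y ≠ 0) (y : Fin d → ℝ) :
    0 < (F3 g y y y).re ∧ (F3 g y y y).im = 0 :=
  pos_mul (pos_mul (inner_self_pos (hg y)) (inner_self_pos (hg y))) (inner_self_pos (hg y))

lemma ar_F3 {d : ℕ} {E : Type} [NormedAddCommGroup E] [InnerProductSpace ℂ E]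
    (g : (Fin d → ℝ) → E) (y y' y'' : Fin d → ℝ) :
    ar (g y) (g y') (g y'') = (F3 g y y' y'').arg := rfl

lemma eR_smul (hMUL : T_MUL) {n : ℕ} (a b : Fin n → Fin 2 → ℂ) (c d : Fin n → ℂ) :
    eR n (fun l => c l • a l) (fun l => d l • b l) =
      ((∏ l, (Complex.normSq (c l) * Complex.normSq (d l)) : ℝ) : ℂ) * eR n a b := by
  rw [eR, eR, (hMUL n).1, (hMUL n).1, eu_smul, eu_smul, inner_smul_left, inner_smul_right]
  have h : ∀ l, (starRingEnd ℂ) (inner ℂ (eu (n := 1) (c l • a l)) (eu (n := 1) (d l • b l))) =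
      (c l * (starRingEnd ℂ) (d l)) *
        (starRingEnd ℂ) (inner ℂ (eu (n := 1) (a l)) (eu (n := 1) (b l))) := by
    intro l
    have h1 : eu (n := 1) (c l • a l) = c l • eu (n := 1) (a l) := rfl
    have h2 : eu (n := 1) (d l • b l) = d l • eu (n := 1) (b l) := rfl
    rw [h1, h2, inner_smul_left, inner_smul_right, map_mul, map_mul, Complex.conj_conj]
    ring
  rw [Finset.prod_congr rfl fun l _ => h l, Finset.prod_mul_distrib, map_prod,
    Complex.ofReal_prod]
  have h3 : ∏ l, (((Complex.normSq (c l) * Complex.normSq (d l) : ℝ)) : ℂ) =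
      (∏ l, (starRingEnd ℂ) (c l)) * (∏ l, d l) * ∏ l, (c l * (starRingEnd ℂ) (d l)) := by
    rw [← Finset.prod_mul_distrib, ← Finset.prod_mul_distrib]
    refine Finset.prod_congr rfl fun l _ => ?_
    push_cast
    rw [← Complex.mul_conj (c l), ← Complex.mul_conj (d l)]
    ring
  rw [h3]
  ring

theorem pf_SMA (hMUL : T_MUL) (hRPM : T_RPM) (hUNI : T_UNI) : T_SMA := by
  intro n δ hδ
  have hpi : (0 : ℝ) < 2 * Real.pi := by positivity
  have hδ' : 0 < 2 * Real.pi * δ := by positivity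
  -- three families of functions
  have hg1 : ∀ y : Fin (2 * n) → ℝ, eu (mu n (al y)) ≠ 0 := fun y h =>
    mu_ne (al_ne y) (by
      have := congrArg nrm (congrArg (WithLp.ofLp) h)
      exact (nrm_eq_zero_iff _).1 (by rw [← norm_eu, h, norm_zero]))
  have hg2 : ∀ l : Fin n, ∀ y : Fin (2 * n) → ℝ, eu (n := 1) (al y l) ≠ 0 := fun l y h =>
    al_ne y l ((nrm_eq_zero_iff (n := 2) _).1 (by
      have := norm_eu (n := 1) (al y l)
      rw [h, norm_zero] at this
      exact this.symm))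
  obtain ⟨N₁, hN₁⟩ := hUNI (2 * n) (F3 fun y => eu (mu n (al y)))
    (F3_cont (continuous_mual hMUL)) (F3_pos hg1) _ hδ'
  have h2 := fun l : Fin n => hUNI (2 * n) (F3 fun y => eu (n := 1) (al y l))
    (F3_cont (continuous_eu.comp (continuous_al hMUL l))) (F3_pos (hg2 l)) _ hδ'
  choose N₂ hN₂ using h2
  obtain ⟨N₃, hN₃⟩ := hUNI (2 * n) (fun y y' _ => eR n (al y) (al y'))
    (by
      have h1 : Continuous fun p : (Fin (2 * n) → ℝ) × (Fin (2 * n) → ℝ) × (Fin (2 * n) → ℝ) =>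
          eu (mu n (al p.1)) := (continuous_mual hMUL).comp continuous_fst
      have h2 : Continuous fun p : (Fin (2 * n) → ℝ) × (Fin (2 * n) → ℝ) × (Fin (2 * n) → ℝ) =>
          eu (mu n (al p.2.1)) :=
        (continuous_mual hMUL).comp (continuous_fst.comp continuous_snd)
      refine (h1.inner h2).mul (continuous_finsetProd _ fun l _ => ?_)
      have h3 : Continuous fun p : (Fin (2 * n) → ℝ) × (Fin (2 * n) → ℝ) × (Fin (2 * n) → ℝ) =>
          eu (n := 1) (al p.1 l) :=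
        (continuous_eu.comp (continuous_al hMUL l)).comp continuous_fst
      have h4 : Continuous fun p : (Fin (2 * n) → ℝ) × (Fin (2 * n) → ℝ) × (Fin (2 * n) → ℝ) =>
          eu (n := 1) (al p.2.1 l) :=
        (continuous_eu.comp (continuous_al hMUL l)).comp (continuous_fst.comp continuous_snd)
      exact Complex.continuous_conj.comp (h3.inner h4))
    (by
      intro y
      refine pos_mul (inner_self_pos (hg1 y)) (pos_prod _ _ fun l => ?_)
      rw [Complex.conj_re, Complex.conj_im, neg_eq_zero]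
      exact inner_self_pos (hg2 l y)) _ hδ'
  refine ⟨N₁ + (∑ l, N₂ l) + N₃, fun N hN S hS u hu v hv w hw => ?_⟩
  obtain ⟨x, hx⟩ := hS
  obtain ⟨y, hy, rfl⟩ := hx hu
  obtain ⟨y', hy', rfl⟩ := hx hv
  obtain ⟨y'', hy'', rfl⟩ := hx hw
  obtain ⟨a, ha, ea⟩ := rr_gY (n := n) N y
  obtain ⟨b, hb, eb⟩ := rr_gY (n := n) N y'
  obtain ⟨c, hc, ec⟩ := rr_gY (n := n) N y''
  have hN2 : ∀ l, N₂ l ≤ N := fun l => by
    have := Finset.single_le_sum (f := N₂) (fun _ _ => Nat.zero_le _) (Finset.mem_univ l)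
    omega
  have k1 := hN₁ N (by omega) x y hy y' hy' y'' hy''
  have k2 := fun l => hN₂ l N (hN2 l) x y hy y' hy' y'' hy''
  have k3 := hN₃ N (by omega) x y hy y' hy' y'' hy''
  have habs : ∀ t : ℝ, |t| < 2 * Real.pi * δ → |t / (2 * Real.pi)| < δ := by
    intro t ht
    rw [abs_div, abs_of_pos hpi, div_lt_iff₀ hpi]
    linarith
  have hpa : (∏ l, a l) ≠ 0 := Finset.prod_ne_zero_iff.2 fun l _ => ha l
  have hpb : (∏ l, b l) ≠ 0 := Finset.prod_ne_zero_iff.2 fun l _ => hb l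
  have hpc : (∏ l, c l) ≠ 0 := Finset.prod_ne_zero_iff.2 fun l _ => hc l
  refine ⟨?_, fun l => ?_, ?_, fun l => ?_, ?_⟩
  · rw [gf_eq hRPM, ea, eb, ec, (hMUL n).1, (hMUL n).1, (hMUL n).1, eu_smul, eu_smul, eu_smul,
      ar_smul hpa hpb hpc]
    exact habs _ k1.2
  · rw [fl_eq, ea, eb, ec]
    have e : ∀ (z : ℂ) (p : Fin 2 → ℂ), eu (n := 1) (z • p) = z • eu (n := 1) p := fun _ _ => rfl
    rw [e, e, e, ar_smul (ha l) (hb l) (hc l)]
    exact habs _ (k2 l).2
  · have e : et n (gY N y) (gY N y') = (eR n (rr (gY N y)) (rr (gY N y'))).arg / (2 * Real.pi) := rfl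
    rw [e, ea, eb, eR_smul hMUL, Complex.arg_real_mul _ (Finset.prod_pos fun l _ =>
      mul_pos (Complex.normSq_pos.2 (ha l)) (Complex.normSq_pos.2 (hb l)))]
    exact habs _ k3.2
  · rw [inner_l, ea, eb]
    have e : ∀ (z : ℂ) (p : Fin 2 → ℂ), eu (n := 1) (z • p) = z • eu (n := 1) p := fun _ _ => rfl
    rw [e, e, inner_smul_left, inner_smul_right]
    have h := (k2 l).1
    rw [F3] at h
    exact mul_ne_zero ((map_ne_zero _).2 (ha l))
      (mul_ne_zero (hb l) (left_ne_zero_of_mul (left_ne_zero_of_mul h)))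
  · rw [inner_gg hRPM, ea, eb, (hMUL n).1, (hMUL n).1, eu_smul, eu_smul, inner_smul_left,
      inner_smul_right]
    have h := k1.1
    rw [F3] at h
    exact mul_ne_zero ((map_ne_zero _).2 hpa)
      (mul_ne_zero hpb (left_ne_zero_of_mul (left_ne_zero_of_mul h)))

end

end Pool.Agent.H43.FL
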